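import Pool.Agent.TH223.AP.A4

/-! # The Dirichlet series of the Liouville function -/

set_option autoImplicit false

open Complex Filter Topology Set MeasureTheory

namespace Pool.Agent.U736.LH

noncomputable section

/-- the Liouville function -/
def la (n : ℕ) : ℝ := ((ArithmeticFunction.liouville n : ℤ) : ℝ)

lemma la_zero : la 0 = 0 := by simp [la]

lemma la_eq {n : ℕ} (hn : n ≠ 0) : la n = (-1) ^ ArithmeticFunction.cardFactors n := by
  unfold la
  rw [ArithmeticFunction.liouville_apply hn]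
  push_cast
  rfl

lemma la_abs (n : ℕ) : |la n| ≤ 1 := by
  rcases eq_or_ne n 0 with rfl | hn
  · rw [la_zero]; simp
  · rw [la_eq hn, abs_pow]
    simp

lemma la_mul (m n : ℕ) : la (m * n) = la m * la n := by
  rcases eq_or_ne m 0 with rfl | hm
  · simp [la_zero]
  rcases eq_or_ne n 0 with rfl | hn
  · simp [la_zero]
  rw [la_eq hm, la_eq hn, la_eq (mul_ne_zero hm hn), ArithmeticFunction.cardFactors_mul hm hn, pow_add]

lemma la_one : la 1 = 1 := by
  rw [la_eq one_ne_zero]; simp

lemma la_prime {p : ℕ} (hp : p.Prime) : la p = -1 := by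
  rw [la_eq hp.ne_zero, ArithmeticFunction.cardFactors_apply_prime hp]; simp

/-- `n ↦ λ(n) n^(-s)` -/
def laHom (s : ℂ) (hs : s ≠ 0) : ℕ →*₀ ℂ where
  toFun n := (la n : ℂ) * (n : ℂ) ^ (-s)
  map_zero' := by simp [la_zero]
  map_one' := by simp [la_one]
  map_mul' m n := by
    rw [la_mul, Nat.cast_mul, Complex.natCast_mul_natCast_cpow]
    push_cast
    ring

lemma LS_eq (s : ℂ) : LSeries (fun n => (la n : ℂ)) s = ∑' n : ℕ, (la n : ℂ) * (n : ℂ) ^ (-s) := by
  unfold LSeries
  refine tsum_congr fun n => ?_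
  rw [LSeries.term_def₀ (by simp [la_zero])]

lemma LS_summable {s : ℂ} (hs : 1 < s.re) : LSeriesSummable (fun n => (la n : ℂ)) s := by
  refine LSeriesSummable_of_bounded_of_one_lt_re (m := 1) (fun n _ => ?_) hs
  rw [Complex.norm_real, Real.norm_eq_abs]
  exact la_abs n

lemma LS_la {s : ℂ} (hs : 1 < s.re) :
    LSeries (fun n => (la n : ℂ)) s * riemannZeta s = riemannZeta (2 * s) := by
  have hs0 : s ≠ 0 := by
    rintro rfl
    simp at hs
    linarith
  have h2 : 1 < (2 * s).re := by
    rw [Complex.mul_re]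
    simp
    linarith
  have hsum : Summable (fun n => ‖laHom s hs0 n‖) := by
    have h := (LS_summable hs).norm
    refine h.congr fun n => ?_
    rw [LSeries.term_def₀ (by simp [la_zero])]
    rfl
  have h3 := EulerProduct.eulerProduct_completely_multiplicative_hasProd hsum
  have h4 := riemannZeta_eulerProduct_hasProd hs
  have h5 := riemannZeta_eulerProduct_hasProd h2
  have h6 := h3.mul h4
  have h7 : (fun p : Nat.Primes => (1 - laHom s hs0 p)⁻¹ * (1 - (p : ℂ) ^ (-s))⁻¹) =
      fun p : Nat.Primes => (1 - (p : ℂ) ^ (-(2 * s)))⁻¹ := by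
    funext p
    have e1 : laHom s hs0 p = -((p : ℂ) ^ (-s)) := by
      show ((la p : ℝ) : ℂ) * (p : ℂ) ^ (-s) = _
      rw [la_prime p.2]
      push_cast
      ring
    have hp0 : ((p : ℕ) : ℂ) ≠ 0 := by exact_mod_cast p.2.ne_zero
    have e2 : (p : ℂ) ^ (-(2 * s)) = (p : ℂ) ^ (-s) * (p : ℂ) ^ (-s) := by
      rw [← Complex.cpow_add _ _ hp0]
      congr 1
      ring
    rw [e1, e2, ← mul_inv]
    congr 1
    ring
  rw [h7] at h6
  have h8 := h6.unique h5
  rw [LS_eq]
  exact h8

end

end Pool.Agent.U736.LH
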