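import Pool.Agent.H307R2.LU

/-! # A local Tauberian inequality -/

set_option autoImplicit false

open Complex Filter Topology Set MeasureTheory Metric

namespace Pool.Agent.U736.LH

noncomputable section

open Pool.Agent.H307R2 (TM TM_differentiableAt)

/-- truncated transform -/
def gX (h : ℝ → ℂ) (X : ℝ) (s : ℂ) : ℂ := ∫ t in Ioc (1:ℝ) X, h t * (t : ℂ) ^ (-(s + 1))

lemma gX_diff {h : ℝ → ℂ} (hm : Measurable h) {X M : ℝ} (hX : 1 ≤ X)
    (hM : ∀ t, 1 ≤ t → t ≤ X → ‖h t‖ ≤ M) {s : ℂ} (hs : -1 < s.re) : DifferentiableAt ℂ (gX h X) s := by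
  set E : ℝ → ℂ := (Ioc (1:ℝ) X).indicator (fun t => h t * t) with hE
  have hEm : Measurable E := (hm.mul (by fun_prop)).indicator measurableSet_Ioc
  have hM0 : 0 ≤ M := (norm_nonneg _).trans (hM 1 le_rfl hX)
  have hEb : ∀ t, ‖E t‖ ≤ M * X := by
    intro t
    by_cases ht : t ∈ Ioc (1:ℝ) X
    · rw [hE, indicator_of_mem ht, norm_mul, Complex.norm_real, Real.norm_eq_abs,
        abs_of_pos (by linarith [ht.1])]
      exact mul_le_mul (hM t ht.1.le ht.2) ht.2 (by linarith [ht.1]) hM0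
    · rw [hE, indicator_of_notMem ht, norm_zero]
      positivity
  have e : gX h X = fun s => TM 1 E (s + 1) := by
    funext z
    unfold gX TM
    rw [Nat.cast_one]
    have h1 : ∀ t : ℝ, E t * (t : ℂ) ^ (-(z + 1 + 1)) =
        (Ioc (1:ℝ) X).indicator (fun t => h t * (t : ℂ) ^ (-(z + 1))) t := by
      intro t
      by_cases ht : t ∈ Ioc (1:ℝ) X
      · have ht0 : (t : ℂ) ≠ 0 := by
          have : t ≠ 0 := by linarith [ht.1]
          exact_mod_cast this
        rw [hE, indicator_of_mem ht, indicator_of_mem ht]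
        have : (t : ℂ) ^ (-(z + 1)) = t * (t : ℂ) ^ (-(z + 1 + 1)) := by
          nth_rewrite 2 [← Complex.cpow_one (t : ℂ)]
          rw [← Complex.cpow_add _ _ ht0]
          congr 1
          ring
        rw [this]
        ring
      · rw [hE, indicator_of_notMem ht, indicator_of_notMem ht, zero_mul]
    simp_rw [h1]
    rw [setIntegral_indicator measurableSet_Ioc]
    congr 2
    rw [inter_eq_right.2 (fun t ht => ht.1)]
  rw [e]
  have h2 := TM_differentiableAt (N := 1) le_rfl hEm hEb (s := s + 1) (by simp; linarith)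
  have h3 : DifferentiableAt ℂ (fun s : ℂ => s + 1) s := by fun_prop
  exact DifferentiableAt.comp (g := TM 1 E) (f := fun s : ℂ => s + 1) s h2 h3

lemma sphere_fac {s : ℂ} {R : ℝ} (hR : 0 < R) (hs : ‖s‖ = R) :
    ‖(1 + (s / R) ^ 2 : ℂ)‖ = 2 * |s.re| / R := by
  set w : ℂ := s / R with hw
  have hwn : ‖w‖ = 1 := by
    rw [hw, norm_div, hs, Complex.norm_real, Real.norm_eq_abs, abs_of_pos hR, div_self hR.ne']
  have h1 : w * (starRingEnd ℂ) w = 1 := by
    rw [Complex.mul_conj, Complex.normSq_eq_norm_sq, hwn]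
    simp
  have h2 : 1 + w ^ 2 = w * ((2 * w.re : ℝ) : ℂ) := by
    rw [← Complex.add_conj]
    linear_combination -h1
  have h3 : w.re = s.re / R := by
    rw [hw, Complex.div_ofReal_re]
  rw [h2, norm_mul, hwn, one_mul, Complex.norm_real, Real.norm_eq_abs, h3, abs_mul, abs_div,
    abs_of_pos hR, abs_of_pos (by norm_num : (0:ℝ) < 2)]
  ring

lemma log_pow (k : ℕ) {y δ : ℝ} (hy : 1 ≤ y) (hδ : 0 < δ) :
    (1 + Real.log y) ^ k ≤ (1 + (k + 1) / δ) ^ k * y ^ δ := by
  have hy0 : 0 < y := by linarith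
  set κ : ℝ := δ / (k + 1) with hκ
  have hκ0 : 0 < κ := by positivity
  have h1 : Real.log y ≤ y ^ κ / κ := Real.log_le_rpow_div hy0.le hκ0
  have h2 : 1 ≤ y ^ κ := Real.one_le_rpow hy hκ0.le
  have h3 : (k + 1) / δ = 1 / κ := by
    rw [hκ]
    field_simp
  have h4 : 1 + Real.log y ≤ (1 + 1 / κ) * y ^ κ := by
    have : y ^ κ / κ = 1 / κ * y ^ κ := by ring
    rw [this] at h1
    linarith
  have hl : 0 ≤ Real.log y := Real.log_nonneg hy
  calc (1 + Real.log y) ^ k ≤ ((1 + 1 / κ) * y ^ κ) ^ k := by gcongr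
    _ = (1 + 1 / κ) ^ k * y ^ (κ * k) := by
        rw [mul_pow, ← Real.rpow_natCast (y ^ κ) k, ← Real.rpow_mul hy0.le]
    _ ≤ (1 + 1 / κ) ^ k * y ^ δ := by
        refine mul_le_mul_of_nonneg_left ?_ (by positivity)
        refine Real.rpow_le_rpow_of_exponent_le hy ?_
        rw [hκ, div_mul_eq_mul_div, div_le_iff₀ (by positivity)]
        nlinarith
    _ = _ := by rw [h3]

lemma tail_bound (k : ℕ) {h : ℝ → ℂ} (hm : Measurable h) {X m : ℝ} (hX : 1 ≤ X) (hm0 : 0 ≤ m)
    (hmm : ∀ t, X ≤ t → ‖h t‖ ≤ m * (1 + Real.log (t / X)) ^ k) {s : ℂ} (hs : 0 < s.re) :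
    IntegrableOn (fun t : ℝ => h t * (t : ℂ) ^ (-(s + 1))) (Ioi X) ∧
    ‖∫ t in Ioi X, h t * (t : ℂ) ^ (-(s + 1))‖ ≤
      m * X ^ (-s.re) * ((1 + (k + 1) / (s.re / 2)) ^ k * (2 / s.re)) := by
  set σ := s.re with hσ
  have hX0 : 0 < X := by linarith
  set Q : ℝ := (1 + (k + 1) / (σ / 2)) ^ k with hQ
  have hQ0 : 0 ≤ Q := by positivity
  set K : ℝ := m * Q * X ^ (-(σ / 2)) with hK
  have hi : IntegrableOn (fun t : ℝ => K * t ^ (-(σ / 2) - 1)) (Ioi X) :=
    (integrableOn_Ioi_rpow_of_lt (by linarith) hX0).const_mul K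
  have hb : ∀ᵐ t ∂(volume.restrict (Ioi X)), ‖h t * (t : ℂ) ^ (-(s + 1))‖ ≤ K * t ^ (-(σ / 2) - 1) := by
    filter_upwards [ae_restrict_mem measurableSet_Ioi] with t ht
    have ht' : X < t := ht
    have ht0 : 0 < t := by linarith
    rw [norm_mul, Complex.norm_cpow_eq_rpow_re_of_pos ht0]
    have h2 : (-(s + 1)).re = -σ - 1 := by simp [hσ]; ring
    rw [h2]
    have h3 : 1 ≤ t / X := by rw [le_div_iff₀ hX0]; linarith
    have h6 : (1 + Real.log (t / X)) ^ k ≤ Q * (t / X) ^ (σ / 2) := log_pow k h3 (by linarith)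
    have h7 : (t / X) ^ (σ / 2) = t ^ (σ / 2) * X ^ (-(σ / 2)) := by
      rw [Real.div_rpow ht0.le hX0.le, Real.rpow_neg hX0.le]
      rfl
    have h8 : t ^ (σ / 2) * t ^ (-σ - 1) = t ^ (-(σ / 2) - 1) := by
      rw [← Real.rpow_add ht0]
      congr 1
      ring
    calc ‖h t‖ * t ^ (-σ - 1) ≤ (m * (Q * (t / X) ^ (σ / 2))) * t ^ (-σ - 1) := by
          refine mul_le_mul_of_nonneg_right ?_ (by positivity)
          exact (hmm t ht'.le).trans (mul_le_mul_of_nonneg_left h6 hm0)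
      _ = K * t ^ (-(σ / 2) - 1) := by
          rw [h7, hK, ← h8]
          ring
  have hmeas : AEStronglyMeasurable (fun t : ℝ => h t * (t : ℂ) ^ (-(s + 1))) (volume.restrict (Ioi X)) := by
    refine AEStronglyMeasurable.mul hm.aestronglyMeasurable ?_
    refine ContinuousOn.aestronglyMeasurable ?_ measurableSet_Ioi
    intro t ht
    have ht' : X < t := ht
    refine ContinuousAt.continuousWithinAt ?_
    exact (Complex.continuousAt_ofReal_cpow_const _ _ (Or.inr (by linarith)))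
  refine ⟨Integrable.mono' hi hmeas hb, ?_⟩
  refine (norm_integral_le_of_norm_le hi hb).trans (le_of_eq ?_)
  rw [integral_const_mul, integral_Ioi_rpow_of_lt (by linarith) hX0]
  have e1 : -(σ / 2) - 1 + 1 = -(σ / 2) := by ring
  rw [e1, neg_div_neg_eq, hK]
  have e2 : X ^ (-σ) = X ^ (-(σ / 2)) * X ^ (-(σ / 2)) := by
    rw [← Real.rpow_add hX0]
    congr 1
    ring
  rw [e2]
  field_simp

lemma head_bound {h : ℝ → ℂ} (hm : Measurable h) {X M : ℝ} (hX : 1 ≤ X)
    (hM : ∀ t, 1 ≤ t → t ≤ X → ‖h t‖ ≤ M) (s : ℂ) :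
    IntegrableOn (fun t : ℝ => h t * (t : ℂ) ^ (-(s + 1))) (Ioc 1 X) ∧
    (s.re < 0 → ‖gX h X s‖ ≤ M * X ^ (-s.re) / (-s.re)) := by
  set σ := s.re with hσ
  have hX0 : 0 < X := by linarith
  have hM0 : 0 ≤ M := (norm_nonneg _).trans (hM 1 le_rfl hX)
  have hi : IntegrableOn (fun t : ℝ => M * t ^ (-σ - 1)) (Ioc 1 X) := by
    refine Integrable.const_mul ?_ M
    refine (ContinuousOn.integrableOn_Icc ?_).mono_set Ioc_subset_Icc_self
    intro t ht
    refine ContinuousAt.continuousWithinAt ?_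
    exact Real.continuousAt_rpow_const _ _ (Or.inl (by linarith [ht.1]))
  have hb : ∀ᵐ t ∂(volume.restrict (Ioc 1 X)), ‖h t * (t : ℂ) ^ (-(s + 1))‖ ≤ M * t ^ (-σ - 1) := by
    filter_upwards [ae_restrict_mem measurableSet_Ioc] with t ht
    have ht0 : 0 < t := by linarith [ht.1]
    rw [norm_mul, Complex.norm_cpow_eq_rpow_re_of_pos ht0]
    have h2 : (-(s + 1)).re = -σ - 1 := by simp [hσ]; ring
    rw [h2]
    exact mul_le_mul_of_nonneg_right (hM t ht.1.le ht.2) (by positivity)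
  have hmeas : AEStronglyMeasurable (fun t : ℝ => h t * (t : ℂ) ^ (-(s + 1))) (volume.restrict (Ioc 1 X)) := by
    refine AEStronglyMeasurable.mul hm.aestronglyMeasurable ?_
    refine ContinuousOn.aestronglyMeasurable ?_ measurableSet_Ioc
    intro t ht
    refine ContinuousAt.continuousWithinAt ?_
    exact (Complex.continuousAt_ofReal_cpow_const _ _ (Or.inr (by linarith [ht.1])))
  refine ⟨Integrable.mono' hi hmeas hb, fun hs => ?_⟩
  refine (norm_integral_le_of_norm_le hi hb).trans ?_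
  rw [← intervalIntegral.integral_of_le hX, intervalIntegral.integral_const_mul,
    integral_rpow (Or.inl (by linarith))]
  have e1 : -σ - 1 + 1 = -σ := by ring
  rw [e1, Real.one_rpow, mul_div_assoc]
  refine mul_le_mul_of_nonneg_left ?_ hM0
  gcongr
  · linarith
  · linarith

/-- the Tauberian inequality -/
theorem taub (k : ℕ) {h : ℝ → ℂ} (hm : Measurable h) {g : ℂ → ℂ} {R X m M B : ℝ} (hR : 0 < R) (hR1 : R ≤ 1 / 2)
    (hX : 1 ≤ X) (hm0 : 0 ≤ m)
    (hM : ∀ t, 1 ≤ t → t ≤ X → ‖h t‖ ≤ M) (hmm : ∀ t, X ≤ t → ‖h t‖ ≤ m * (1 + Real.log (t / X)) ^ k)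
    (hg : DifferentiableOn ℂ g (closedBall 0 R)) (hB : ∀ s, ‖s‖ ≤ R → ‖g s‖ ≤ B)
    (hgi : ∀ s : ℂ, 0 < s.re → ‖s‖ ≤ R → g s = ∫ t in Ioi (1:ℝ), h t * (t : ℂ) ^ (-(s + 1))) :
    ‖∫ t in (1:ℝ)..X, h t / t‖ ≤ (1 + 2 ^ (k + 1)) * B + (2 * k + 3) ^ k * 2 * (2 / R) ^ (k + 1) * m +
      2 ^ (k + 1) / R * M := by
  have hX0 : 0 < X := by linarith
  have hM0 : 0 ≤ M := (norm_nonneg _).trans (hM 1 le_rfl hX)
  have hB0 : 0 ≤ B := (norm_nonneg _).trans (hB 0 (by simp [hR.le]))
  set C : ℝ := 2 ^ (k + 1) * B + (2 * k + 3) ^ k * 2 * (2 / R) ^ (k + 1) * m + 2 ^ (k + 1) / R * M with hC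
  have hC0 : 0 ≤ C := by positivity
  set G : ℂ → ℂ := fun s => (g s - gX h X s) * ((X : ℂ) ^ s * (1 + (s / R) ^ 2) ^ (k + 1)) with hG
  have hXc : (X : ℂ) ≠ 0 := by exact_mod_cast hX0.ne'
  have hGd : DifferentiableOn ℂ G (closure (ball (0:ℂ) R)) := by
    rw [closure_ball _ hR.ne']
    intro s hs
    have hs' : ‖s‖ ≤ R := by simpa using hs
    have hsre : -1 < s.re := by
      have := (abs_le.1 ((Complex.abs_re_le_norm s).trans hs')).1
      linarith
    refine DifferentiableWithinAt.mul ((hg s hs).sub (gX_diff hm hX hM hsre).differentiableWithinAt) ?_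
    refine DifferentiableAt.differentiableWithinAt ?_
    refine DifferentiableAt.mul ?_ (by fun_prop)
    exact DifferentiableAt.const_cpow differentiableAt_id (Or.inl hXc)
  have hfr : ∀ s ∈ frontier (ball (0:ℂ) R), ‖G s‖ ≤ C := by
    intro s hs
    rw [frontier_ball _ hR.ne', mem_sphere_zero_iff_norm] at hs
    have hfac := sphere_fac hR hs
    have hnorm : ‖G s‖ = ‖g s - gX h X s‖ * (X ^ s.re * (2 * |s.re| / R) ^ (k + 1)) := by
      simp only [hG]
      rw [norm_mul, norm_mul, norm_pow, hfac, Complex.norm_cpow_eq_rpow_re_of_pos hX0]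
    rw [hnorm]
    have hre : |s.re| ≤ R := by
      rw [← hs]
      exact Complex.abs_re_le_norm s
    rcases lt_trichotomy s.re 0 with h0 | h0 | h0
    · rw [abs_of_neg h0] at hre ⊢
      have h1 := (head_bound hm hX hM s).2 h0
      have h2 : ‖g s - gX h X s‖ ≤ B + M * X ^ (-s.re) / (-s.re) :=
        (norm_sub_le _ _).trans (add_le_add (hB s hs.le) h1)
      have h3 : X ^ s.re ≤ 1 := Real.rpow_le_one_of_one_le_of_nonpos hX h0.le
      have h4 : 0 < X ^ s.re := by positivity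
      have h5 : X ^ (-s.re) * X ^ s.re = 1 := by
        rw [← Real.rpow_add hX0]; simp
      have hneg : 0 < -s.re := by linarith
      have h6 : 2 * -s.re / R ≤ 2 := by
        rw [div_le_iff₀ hR]
        linarith
      have h7 : 0 ≤ 2 * -s.re / R := by positivity
      have h8 : (2 * -s.re / R) ^ (k + 1) ≤ 2 ^ (k + 1) := pow_le_pow_left₀ h7 h6 _
      have h9 : (2 * -s.re / R) ^ k ≤ 2 ^ k := pow_le_pow_left₀ h7 h6 _
      calc ‖g s - gX h X s‖ * (X ^ s.re * (2 * -s.re / R) ^ (k + 1))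
          ≤ (B + M * X ^ (-s.re) / (-s.re)) * (X ^ s.re * (2 * -s.re / R) ^ (k + 1)) := by
            gcongr
        _ = B * X ^ s.re * (2 * -s.re / R) ^ (k + 1) +
            M * (X ^ (-s.re) * X ^ s.re) * ((2 / R) * (2 * -s.re / R) ^ k) := by
            rw [pow_succ]
            generalize X ^ (-s.re) = a1
            generalize X ^ s.re = a2
            have h10 : (2 * -s.re / R) = -s.re * (2 / R) := by ring
            generalize (2 * -s.re / R) ^ k = a3
            rw [h10]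
            generalize -s.re = τ at hneg ⊢
            field_simp
        _ ≤ B * 1 * 2 ^ (k + 1) + M * 1 * ((2 / R) * 2 ^ k) := by
            rw [h5]
            gcongr
        _ = 2 ^ (k + 1) * B + 2 ^ (k + 1) / R * M := by
            rw [pow_succ]
            ring
        _ ≤ C := by
            rw [hC]
            have : 0 ≤ (2 * (k:ℝ) + 3) ^ k * 2 * (2 / R) ^ (k + 1) * m := by positivity
            linarith
    · rw [h0]
      simp [hC0]
    · rw [abs_of_pos h0] at hre ⊢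
      obtain ⟨i1, b1⟩ := tail_bound k hm hX hm0 hmm h0
      have i2 := (head_bound hm hX hM s).1
      have e1 : g s - gX h X s = ∫ t in Ioi X, h t * (t : ℂ) ^ (-(s + 1)) := by
        rw [hgi s h0 hs.le]
        have : Ioi (1:ℝ) = Ioc 1 X ∪ Ioi X := (Ioc_union_Ioi_eq_Ioi hX).symm
        have hdisj : Disjoint (Ioc (1:ℝ) X) (Ioi X) :=
          Set.disjoint_left.2 fun t h1 h2 => absurd h1.2 (not_le.2 h2)
        rw [this, setIntegral_union hdisj measurableSet_Ioi i2 i1]
        unfold gX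
        ring
      rw [e1]
      have h5 : X ^ (-s.re) * X ^ s.re = 1 := by
        rw [← Real.rpow_add hX0]; simp
      have h6 : (1 + (k + 1) / (s.re / 2)) ^ k * (2 / s.re) * (2 * s.re / R) ^ (k + 1) =
          (s.re + 2 * (k + 1)) ^ k * 2 * (2 / R) ^ (k + 1) := by
        have h7 : (s.re + 2 * (k + 1)) = (1 + (k + 1) / (s.re / 2)) * s.re := by
          field_simp
        have h8 : 2 * s.re / R = s.re * (2 / R) := by ring
        rw [h7, h8, mul_pow, mul_pow, pow_succ s.re k]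
        field_simp
      have h9 : (s.re + 2 * ((k:ℝ) + 1)) ^ k ≤ (2 * k + 3) ^ k :=
        pow_le_pow_left₀ (by positivity) (by linarith) _
      calc ‖∫ t in Ioi X, h t * (t : ℂ) ^ (-(s + 1))‖ * (X ^ s.re * (2 * s.re / R) ^ (k + 1))
          ≤ (m * X ^ (-s.re) * ((1 + (k + 1) / (s.re / 2)) ^ k * (2 / s.re))) *
            (X ^ s.re * (2 * s.re / R) ^ (k + 1)) := by
            gcongr
        _ = m * (X ^ (-s.re) * X ^ s.re) *
            ((1 + (k + 1) / (s.re / 2)) ^ k * (2 / s.re) * (2 * s.re / R) ^ (k + 1)) := by ring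
        _ = m * 1 * ((s.re + 2 * (k + 1)) ^ k * 2 * (2 / R) ^ (k + 1)) := by rw [h5, h6]
        _ ≤ m * 1 * ((2 * k + 3) ^ k * 2 * (2 / R) ^ (k + 1)) := by gcongr
        _ = (2 * k + 3) ^ k * 2 * (2 / R) ^ (k + 1) * m := by ring
        _ ≤ C := by
            rw [hC]
            have : 0 ≤ 2 ^ (k + 1) / R * M := by positivity
            have : 0 ≤ 2 ^ (k + 1) * B := by positivity
            linarith
  have h0 := Complex.norm_le_of_forall_mem_frontier_norm_le isBounded_ball hGd.diffContOnCl hfr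
    (subset_closure (mem_ball_self hR))
  have hG0 : G 0 = g 0 - gX h X 0 := by
    simp only [hG]
    simp
  rw [hG0] at h0
  have e2 : ∫ t in (1:ℝ)..X, h t / t = gX h X 0 := by
    rw [intervalIntegral.integral_of_le hX]
    unfold gX
    refine setIntegral_congr_fun measurableSet_Ioc fun t ht => ?_
    show h t / t = h t * (t : ℂ) ^ (-((0:ℂ) + 1))
    rw [zero_add, Complex.cpow_neg_one]
    rfl
  rw [e2]
  have h6 : ‖gX h X 0‖ ≤ ‖g 0‖ + ‖g 0 - gX h X 0‖ := by
    have := norm_sub_le (g 0) (g 0 - gX h X 0)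
    simpa using this
  have h7 := hB 0 (by simp [hR.le])
  rw [hC] at h0
  linarith

end

end Pool.Agent.U736.LH
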