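import Pool.Agent.U736.LH.A
import Pool.Agent.U736.LH.B

/-! # The transform of the summatory function of the Liouville function near `1/2` -/

set_option autoImplicit false

open Complex Filter Topology Set MeasureTheory Metric

namespace Pool.Agent.U736.LH

noncomputable section

open Pool.Agent.H307R2 (TM TM_differentiableAt TM_integrable)

/-- `(s-1)ζ(s)` -/
def FF : ℂ → ℂ := Function.update (fun s => (s - 1) * riemannZeta s) 1 1

lemma FF_ne {s : ℂ} (h : s ≠ 1) : FF s = (s - 1) * riemannZeta s := Function.update_of_ne h _ _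

lemma FF_one : FF 1 = 1 := Function.update_self _ _ _

lemma FF_da {s : ℂ} (h : s ≠ 1) : DifferentiableAt ℂ FF s := by
  have h1 : DifferentiableAt ℂ (fun s => (s - 1) * riemannZeta s) s :=
    DifferentiableAt.mul (by fun_prop) (differentiableAt_riemannZeta h)
  refine h1.congr_of_eventuallyEq ?_
  filter_upwards [isOpen_ne.mem_nhds h] with z hz
  exact FF_ne hz

lemma FF_diff : Differentiable ℂ FF := by
  intro s
  by_cases h : s = 1
  · subst h
    have h1 : ContinuousAt FF 1 := continuousAt_update_same.2 riemannZeta_residue_one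
    refine (Complex.analyticAt_of_differentiable_on_punctured_nhds_of_continuousAt ?_ h1).differentiableAt
    filter_upwards [self_mem_nhdsWithin] with z hz
    exact FF_da hz
  · exact FF_da h

/-- the summatory function -/
def LL (x : ℝ) : ℝ := ∑ n ∈ Finset.Icc 1 ⌊x⌋₊, la n

lemma LL_meas : Measurable LL :=
  (measurable_from_nat (f := fun N : ℕ => ∑ n ∈ Finset.Icc 1 N, la n)).comp Nat.measurable_floor

/-- the transform -/
def DD (z : ℂ) : ℂ := ∫ t in Ioi (1:ℝ), (LL t : ℂ) * (t : ℂ) ^ (-(z + 1))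

lemma LS_DD {z : ℂ} (hz : 1 < z.re) : LSeries (fun n => (la n : ℂ)) z = z * DD z := by
  have h := LSeries_eq_mul_integral' (fun n => (la n : ℂ)) (r := 1) zero_le_one hz ?_
  · rw [h]
    unfold DD LL
    push_cast
    rfl
  · refine Asymptotics.IsBigO.of_bound 1 (Eventually.of_forall fun n => ?_)
    rw [Real.rpow_one, one_mul, Real.norm_eq_abs, abs_of_nonneg (Finset.sum_nonneg fun k _ => norm_nonneg _)]
    refine (Finset.sum_le_sum (g := fun _ => (1:ℝ)) fun k _ => ?_).trans ?_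
    · rw [Complex.norm_real, Real.norm_eq_abs]
      exact la_abs k
    · simp

/-- the bound assumed -/
def Hyp (k : ℕ) (K : ℝ) : Prop := ∀ t : ℝ, 1 ≤ t → |LL t| ≤ K * Real.sqrt t * (1 + Real.log t) ^ k

/-- the bounded function -/
def Ed (δ t : ℝ) : ℂ := if 1 ≤ t then ((LL t * t ^ (-(1 / 2 + δ)) : ℝ) : ℂ) else 0

lemma Ed_meas (δ : ℝ) : Measurable (Ed δ) := by
  unfold Ed
  refine Measurable.ite measurableSet_Ici ?_ measurable_const
  exact Complex.measurable_ofReal.comp (LL_meas.mul (by fun_prop))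

lemma Ed_bd {k : ℕ} {K δ : ℝ} (hK : Hyp k K) (hK0 : 0 ≤ K) (hδ : 0 < δ) (t : ℝ) :
    ‖Ed δ t‖ ≤ K * (1 + (k + 1) / δ) ^ k := by
  unfold Ed
  split_ifs with h
  · have ht0 : 0 < t := by linarith
    rw [Complex.norm_real, Real.norm_eq_abs, abs_mul, abs_of_pos (Real.rpow_pos_of_pos ht0 _)]
    have h1 := hK t h
    have h4 : (1 + Real.log t) ^ k ≤ (1 + (k + 1) / δ) ^ k * t ^ δ := log_pow k h hδ
    have h5 : Real.sqrt t * t ^ δ * t ^ (-(1 / 2 + δ)) = 1 := by
      rw [Real.sqrt_eq_rpow, ← Real.rpow_add ht0, ← Real.rpow_add ht0]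
      norm_num
    have h6 : 0 ≤ t ^ (-(1 / 2 + δ)) := by positivity
    calc |LL t| * t ^ (-(1 / 2 + δ)) ≤
        (K * Real.sqrt t * ((1 + (k + 1) / δ) ^ k * t ^ δ)) * t ^ (-(1 / 2 + δ)) := by
          refine mul_le_mul_of_nonneg_right (h1.trans ?_) h6
          exact mul_le_mul_of_nonneg_left h4 (by positivity)
      _ = K * (1 + (k + 1) / δ) ^ k * (Real.sqrt t * t ^ δ * t ^ (-(1 / 2 + δ))) := by ring
      _ = K * (1 + (k + 1) / δ) ^ k := by rw [h5, mul_one]
  · rw [norm_zero]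
    positivity

lemma Ed_eq (δ : ℝ) (z : ℂ) {t : ℝ} (ht : 1 < t) :
    Ed δ t * (t : ℂ) ^ (-((z - (1 / 2 + δ : ℝ)) + 1)) = (LL t : ℂ) * (t : ℂ) ^ (-(z + 1)) := by
  have ht0 : 0 < t := by linarith
  have ht0c : (t : ℂ) ≠ 0 := by exact_mod_cast ht0.ne'
  unfold Ed
  rw [if_pos ht.le]
  push_cast
  rw [Complex.ofReal_cpow ht0.le, mul_assoc, ← Complex.cpow_add _ _ ht0c]
  congr 2
  push_cast
  ring

lemma DD_eq (δ : ℝ) (z : ℂ) : DD z = TM 1 (Ed δ) (z - (1 / 2 + δ : ℝ)) := by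
  unfold DD TM
  rw [Nat.cast_one]
  refine setIntegral_congr_fun measurableSet_Ioi fun t ht => ?_
  exact (Ed_eq δ z ht).symm

lemma DD_int {k : ℕ} {K : ℝ} (hK : Hyp k K) (hK0 : 0 ≤ K) {z : ℂ} (hz : 1 / 2 < z.re) :
    IntegrableOn (fun t : ℝ => (LL t : ℂ) * (t : ℂ) ^ (-(z + 1))) (Ioi 1) := by
  set δ := (z.re - 1 / 2) / 2 with hδ
  have hδ0 : 0 < δ := by rw [hδ]; linarith
  have h := TM_integrable (N := 1) le_rfl (Ed_meas δ) (Ed_bd hK hK0 hδ0)
    (s := z - (1 / 2 + δ : ℝ)) (by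
      rw [Complex.sub_re, Complex.ofReal_re]
      rw [hδ]
      linarith)
  rw [Nat.cast_one] at h
  exact h.congr_fun (fun t ht => Ed_eq δ z ht) measurableSet_Ioi

lemma DD_diff {k : ℕ} {K : ℝ} (hK : Hyp k K) (hK0 : 0 ≤ K) {z : ℂ} (hz : 1 / 2 < z.re) : DifferentiableAt ℂ DD z := by
  set δ := (z.re - 1 / 2) / 2 with hδ
  have hδ0 : 0 < δ := by rw [hδ]; linarith
  have h := TM_differentiableAt (N := 1) le_rfl (Ed_meas δ) (Ed_bd hK hK0 hδ0)
    (s := z - (1 / 2 + δ : ℝ)) (by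
      rw [Complex.sub_re, Complex.ofReal_re]
      rw [hδ]
      linarith)
  have e : DD = fun z => TM 1 (Ed δ) (z - (1 / 2 + δ : ℝ)) := funext fun z => DD_eq δ z
  rw [e]
  have h3 : DifferentiableAt ℂ (fun z : ℂ => z - ((1 / 2 + δ : ℝ) : ℂ)) z := by fun_prop
  exact DifferentiableAt.comp (g := TM 1 (Ed δ)) (f := fun z : ℂ => z - ((1 / 2 + δ : ℝ) : ℂ)) z h h3

lemma DD_id {k : ℕ} {K : ℝ} (hK : Hyp k K) (hK0 : 0 ≤ K) {z : ℂ} (hz : 1 / 2 < z.re) :
    z * DD z * FF z = (z - 1) * riemannZeta (2 * z) := by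
  set U : Set ℂ := {z | 1 / 2 < z.re} with hU
  have hUo : IsOpen U := isOpen_lt continuous_const Complex.continuous_re
  have hUc : IsPreconnected U := (convex_halfSpace_re_gt (1 / 2)).isPreconnected
  have hA : AnalyticOnNhd ℂ (fun z => z * DD z * FF z) U := by
    refine DifferentiableOn.analyticOnNhd (fun z hz => ?_) hUo
    have h1 := DD_diff hK hK0 (z := z) hz
    exact ((differentiableAt_id.mul h1).mul (FF_diff z)).differentiableWithinAt
  have hB : AnalyticOnNhd ℂ (fun z => (z - 1) * riemannZeta (2 * z)) U := by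
    refine DifferentiableOn.analyticOnNhd (fun z hz => ?_) hUo
    have hz' : 1 / 2 < z.re := hz
    have hne : 2 * z ≠ 1 := by
      intro h
      have := congrArg Complex.re h
      simp at this
      linarith
    have h3 : DifferentiableAt ℂ (fun z : ℂ => 2 * z) z := by fun_prop
    have h2 : DifferentiableAt ℂ (fun z => riemannZeta (2 * z)) z :=
      DifferentiableAt.comp (g := riemannZeta) (f := fun z : ℂ => 2 * z) z (differentiableAt_riemannZeta hne) h3
    exact (DifferentiableAt.mul (by fun_prop) h2).differentiableWithinAt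
  have hev : (fun z => z * DD z * FF z) =ᶠ[𝓝 (2:ℂ)] fun z => (z - 1) * riemannZeta (2 * z) := by
    have hopen : {z : ℂ | 1 < z.re} ∈ 𝓝 (2:ℂ) :=
      (isOpen_lt continuous_const Complex.continuous_re).mem_nhds (by simp)
    filter_upwards [hopen] with w hw
    have hw' : 1 < w.re := hw
    have hne : w ≠ 1 := by
      rintro rfl
      simp at hw'
    have e1 := LS_la hw'
    rw [LS_DD hw'] at e1
    rw [FF_ne hne, ← e1]
    ring
  have := hA.eqOn_of_preconnected_of_eventuallyEq hB hUc (show (2:ℂ) ∈ U by simp [hU]; norm_num) hev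
  exact this hz

/-- the quotient -/
def EE (s : ℂ) : ℂ := FF (1 + 2 * s) / (2 * (1 / 2 + s) * riemannZeta (1 / 2 + s))

lemma EE_zero : EE 0 = 1 / riemannZeta (1 / 2) := by
  unfold EE
  rw [mul_zero, add_zero, add_zero, FF_one]
  norm_num

/-- the normalised function -/
def hh (t : ℝ) : ℂ := ((LL t / Real.sqrt t : ℝ) : ℂ) - 1 / riemannZeta (1 / 2)

lemma hh_meas : Measurable hh := by
  unfold hh
  exact (Complex.measurable_ofReal.comp (LL_meas.div (by fun_prop))).sub_const _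

lemma exists_R : ∃ R : ℝ, 0 < R ∧ R ≤ 1 / 4 ∧ ∀ s : ℂ, ‖s‖ < 2 * R → riemannZeta (1 / 2 + s) ≠ 0 := by
  have hne : (1 / 2 + 0 : ℂ) ≠ 1 := by norm_num
  have hc : ContinuousAt (fun s : ℂ => riemannZeta (1 / 2 + s)) 0 := by
    have h3 : ContinuousAt (fun s : ℂ => 1 / 2 + s) 0 := by fun_prop
    exact ContinuousAt.comp (g := riemannZeta) (f := fun s : ℂ => 1 / 2 + s)
      (differentiableAt_riemannZeta hne).continuousAt h3
  have h0 : riemannZeta (1 / 2 + (0:ℂ)) ≠ 0 := by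
    rw [add_zero]
    exact Pool.Agent.TH223.AP.zeta_half_ne
  obtain ⟨ε, hε, h⟩ := Metric.eventually_nhds_iff.1 (hc.eventually_ne h0)
  refine ⟨min (ε / 2) (1 / 4), by positivity, min_le_right _ _, fun s hs => h ?_⟩
  rw [dist_zero_right]
  have := min_le_left (ε / 2) (1 / 4 : ℝ)
  linarith

/-- the continuation -/
theorem cont : ∃ (R B : ℝ) (g : ℂ → ℂ), 0 < R ∧ R ≤ 1 / 2 ∧ DifferentiableOn ℂ g (closedBall 0 R) ∧
    (∀ s, ‖s‖ ≤ R → ‖g s‖ ≤ B) ∧ ∀ (k : ℕ) (K : ℝ), 0 ≤ K → Hyp k K → ∀ s : ℂ, 0 < s.re → ‖s‖ ≤ R →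
      g s = ∫ t in Ioi (1:ℝ), hh t * (t : ℂ) ^ (-(s + 1)) := by
  obtain ⟨R, hR, hR4, hz⟩ := exists_R
  have hball : DifferentiableOn ℂ EE (ball 0 (2 * R)) := by
    intro s hs
    have hs' : ‖s‖ < 2 * R := by simpa using hs
    have h1 : ‖s‖ < 1 / 2 := by linarith
    have hre := abs_lt.1 ((Complex.abs_re_le_norm s).trans_lt h1)
    have hne : (1 / 2 + s : ℂ) ≠ 1 := by
      intro h
      have := congrArg Complex.re h
      simp at this
      linarith [hre.2]
    have hne0 : (1 / 2 + s : ℂ) ≠ 0 := by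
      intro h
      have := congrArg Complex.re h
      simp at this
      linarith [hre.1]
    have h3 : DifferentiableAt ℂ (fun s : ℂ => 1 / 2 + s) s := by fun_prop
    have h4 : DifferentiableAt ℂ (fun s : ℂ => riemannZeta (1 / 2 + s)) s :=
      DifferentiableAt.comp (g := riemannZeta) (f := fun s : ℂ => 1 / 2 + s) s
        (differentiableAt_riemannZeta hne) h3
    have h5 : DifferentiableAt ℂ (fun s : ℂ => 1 + 2 * s) s := by fun_prop
    have h6 : DifferentiableAt ℂ (fun s : ℂ => FF (1 + 2 * s)) s :=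
      DifferentiableAt.comp (g := FF) (f := fun s : ℂ => 1 + 2 * s) s (FF_diff _) h5
    refine (DifferentiableAt.div h6 (DifferentiableAt.mul (by fun_prop) h4) ?_).differentiableWithinAt
    exact mul_ne_zero (mul_ne_zero two_ne_zero hne0) (hz s hs')
  have hg : DifferentiableOn ℂ (dslope EE 0) (ball 0 (2 * R)) :=
    (Complex.differentiableOn_dslope (isOpen_ball.mem_nhds (mem_ball_self (by positivity)))).2 hball
  have hsub : closedBall (0:ℂ) R ⊆ ball 0 (2 * R) := closedBall_subset_ball (by linarith)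
  have hg' : DifferentiableOn ℂ (dslope EE 0) (closedBall 0 R) := hg.mono hsub
  obtain ⟨B, hB⟩ := (isCompact_closedBall (0:ℂ) R).exists_bound_of_continuousOn hg'.continuousOn
  refine ⟨R, B, dslope EE 0, hR, by linarith, hg', fun s hs => hB s (by simpa using hs), ?_⟩
  intro k K hK0 hK s hs hsR
  have hs0 : s ≠ 0 := by
    rintro rfl
    simp at hs
  have h2R : ‖s‖ < 2 * R := by linarith
  have hre := abs_lt.1 ((Complex.abs_re_le_norm s).trans_lt (by linarith : ‖s‖ < 1 / 2))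
  have hne : (1 / 2 + s : ℂ) ≠ 1 := by
    intro h
    have := congrArg Complex.re h
    simp at this
    linarith [hre.2]
  have hne0 : (1 / 2 + s : ℂ) ≠ 0 := by
    intro h
    have := congrArg Complex.re h
    simp at this
    linarith [hre.1]
  have hzr : 1 / 2 < (1 / 2 + s : ℂ).re := by simp; linarith
  have hid := DD_id hK hK0 hzr
  rw [FF_ne hne] at hid
  have hz1 := hz s h2R
  have hid2 : (1 / 2 + s) * DD (1 / 2 + s) * riemannZeta (1 / 2 + s) = riemannZeta (2 * (1 / 2 + s)) := by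
    have h7 : (1 / 2 + s - 1 : ℂ) ≠ 0 := sub_ne_zero.2 hne
    refine mul_left_cancel₀ h7 ?_
    linear_combination hid
  have hFF : FF (1 + 2 * s) = 2 * s * riemannZeta (2 * (1 / 2 + s)) := by
    have : (1 + 2 * s : ℂ) ≠ 1 := by
      intro h
      apply hs0
      have h8 : 2 * s = 0 := by linear_combination h
      simpa using h8
    rw [FF_ne this]
    have e : (2 * (1 / 2 + s) : ℂ) = 1 + 2 * s := by ring
    rw [e]
    ring
  have hEE : EE s = s * DD (1 / 2 + s) := by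
    unfold EE
    rw [hFF, ← hid2, div_eq_iff (mul_ne_zero (mul_ne_zero two_ne_zero hne0) hz1)]
    ring
  rw [dslope_of_ne _ hs0, slope_def_field, hEE, EE_zero, sub_zero]
  -- the integral
  have i1 := DD_int hK hK0 hzr
  have i2 : IntegrableOn (fun t : ℝ => (1 / riemannZeta (1 / 2)) * (t : ℂ) ^ (-(s + 1))) (Ioi 1) := by
    have := TM_integrable (N := 1) le_rfl (E := fun _ => (1 / riemannZeta (1 / 2) : ℂ)) measurable_const
      (B := ‖(1 / riemannZeta (1 / 2) : ℂ)‖) (fun _ => le_rfl) hs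
    rwa [Nat.cast_one] at this
  have e1 : ∫ t in Ioi (1:ℝ), hh t * (t : ℂ) ^ (-(s + 1)) =
      ∫ t in Ioi (1:ℝ), ((LL t : ℂ) * (t : ℂ) ^ (-((1 / 2 + s) + 1)) -
        (1 / riemannZeta (1 / 2)) * (t : ℂ) ^ (-(s + 1))) := by
    refine setIntegral_congr_fun measurableSet_Ioi fun t ht => ?_
    have ht' : 1 < t := ht
    have ht0 : 0 < t := by linarith
    have ht0c : (t : ℂ) ≠ 0 := by exact_mod_cast ht0.ne'
    show hh t * (t : ℂ) ^ (-(s + 1)) = _
    unfold hh
    have h9 : ((LL t / Real.sqrt t : ℝ) : ℂ) = (LL t : ℂ) * (t : ℂ) ^ (-(1 / 2) : ℂ) := by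
      rw [Real.sqrt_eq_rpow, div_eq_mul_inv, ← Real.rpow_neg ht0.le]
      push_cast
      rw [Complex.ofReal_cpow ht0.le]
      push_cast
      rfl
    have h10 : (t : ℂ) ^ (-((1 / 2 + s) + 1)) = (t : ℂ) ^ (-(1 / 2) : ℂ) * (t : ℂ) ^ (-(s + 1)) := by
      rw [← Complex.cpow_add _ _ ht0c]
      congr 1
      ring
    rw [h9, h10]
    ring
  rw [e1, integral_sub i1 i2, integral_const_mul, integral_Ioi_cpow_of_lt (by simp; linarith) one_pos]
  show _ = DD (1 / 2 + s) - _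
  have e3 : (-(s + 1) + 1 : ℂ) = -s := by ring
  rw [e3]
  push_cast
  rw [Complex.one_cpow]
  field_simp

/-- the Tauberian bound for the Liouville function -/
theorem main_bound (k : ℕ) : ∃ A : ℝ, 0 ≤ A ∧ ∀ K : ℝ, 0 ≤ K → Hyp k K → ∀ X : ℝ, 1 ≤ X → ∀ m M : ℝ, 0 ≤ m →
    (∀ t, 1 ≤ t → t ≤ X → ‖hh t‖ ≤ M) → (∀ t, X ≤ t → ‖hh t‖ ≤ m * (1 + Real.log (t / X)) ^ k) →
      ‖∫ t in (1:ℝ)..X, hh t / t‖ ≤ A * (1 + m + M) := by
  obtain ⟨R, B, g, hR, hR1, hg, hB, hgi⟩ := cont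
  have hB0 : 0 ≤ B := (norm_nonneg _).trans (hB 0 (by simp [hR.le]))
  refine ⟨(1 + 2 ^ (k + 1)) * B + (2 * k + 3) ^ k * 2 * (2 / R) ^ (k + 1) + 2 ^ (k + 1) / R,
    by positivity, ?_⟩
  intro K hK0 hK X hX m M hm hM hmm
  have hM0 : 0 ≤ M := (norm_nonneg _).trans (hM 1 le_rfl hX)
  have h := taub k hh_meas hR hR1 hX hm hM hmm hg hB (hgi k K hK0 hK)
  refine h.trans ?_
  have h1 : 0 ≤ (1 + 2 ^ (k + 1)) * B := by positivity
  have h2 : 0 ≤ (2 * (k:ℝ) + 3) ^ k * 2 * (2 / R) ^ (k + 1) := by positivity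
  have h3 : 0 ≤ 2 ^ (k + 1) / R := by positivity
  generalize (1 + 2 ^ (k + 1)) * B = a at *
  generalize (2 * (k:ℝ) + 3) ^ k * 2 * (2 / R) ^ (k + 1) = b at *
  generalize 2 ^ (k + 1) / R = c at *
  nlinarith [mul_nonneg h1 hm, mul_nonneg h1 hM0, mul_nonneg h2 hM0, mul_nonneg h3 hm]

end

end Pool.Agent.U736.LH
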