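import Pool.Agent.U736.LH.C

/-! # Partial summation -/

set_option autoImplicit false

open Complex Filter Topology Set MeasureTheory Metric

namespace Pool.Agent.U736.LH

noncomputable section

/-- the weighted sum -/
def Lh (x : ℝ) : ℝ := ∑ n ∈ Finset.Icc 1 ⌊x⌋₊, la n / Real.sqrt n

lemma Lh_meas : Measurable Lh :=
  (measurable_from_nat (f := fun N : ℕ => ∑ n ∈ Finset.Icc 1 N, la n / Real.sqrt n)).comp Nat.measurable_floor

lemma sum_Icc01 (f : ℕ → ℝ) (h0 : f 0 = 0) (N : ℕ) : ∑ k ∈ Finset.Icc 0 N, f k = ∑ k ∈ Finset.Icc 1 N, f k := by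
  rw [← Finset.insert_Icc_add_one_left_eq_Icc N.zero_le, Finset.sum_insert (by simp), h0, zero_add, zero_add]

lemma abel1 {x : ℝ} (hx : 1 ≤ x) :
    Lh x = LL x / Real.sqrt x + (1 / 2) * ∫ t in (1:ℝ)..x, LL t / Real.sqrt t / t := by
  have hd : ∀ t ∈ Set.Icc (1:ℝ) x, HasDerivAt (fun t : ℝ => t ^ (-(1 / 2) : ℝ)) (-(1 / 2) * t ^ (-(1 / 2) - 1 : ℝ)) t := by
    intro t ht
    exact Real.hasDerivAt_rpow_const (Or.inl (by linarith [ht.1]))
  have hint : IntegrableOn (deriv (fun t : ℝ => t ^ (-(1 / 2) : ℝ))) (Set.Icc 1 x) := by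
    have : IntegrableOn (fun t : ℝ => -(1 / 2) * t ^ (-(1 / 2) - 1 : ℝ)) (Set.Icc 1 x) := by
      refine ContinuousOn.integrableOn_Icc fun t ht => ContinuousAt.continuousWithinAt ?_
      exact (Real.continuousAt_rpow_const _ _ (Or.inl (by linarith [ht.1]))).const_mul _
    exact this.congr_fun (fun t ht => ((hd t ht).deriv).symm) measurableSet_Icc
  have h := sum_mul_eq_sub_integral_mul₀ (f := fun t : ℝ => t ^ (-(1 / 2) : ℝ)) (c := la) la_zero x
    (fun t ht => (hd t ht).differentiableAt) hint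
  have e1 : ∑ k ∈ Finset.Icc 0 ⌊x⌋₊, ((k : ℝ) ^ (-(1 / 2) : ℝ)) * la k = Lh x := by
    rw [sum_Icc01 _ (by rw [la_zero, mul_zero])]
    unfold Lh
    refine Finset.sum_congr rfl fun n _ => ?_
    rw [Real.sqrt_eq_rpow, Real.rpow_neg (Nat.cast_nonneg n)]
    field_simp
  have e2 : ∀ t : ℝ, ∑ k ∈ Finset.Icc 0 ⌊t⌋₊, la k = LL t := fun t => sum_Icc01 _ la_zero _
  rw [e1, e2] at h
  rw [h]
  have e3 : ∫ t in Set.Ioc 1 x, deriv (fun t : ℝ => t ^ (-(1 / 2) : ℝ)) t * ∑ k ∈ Finset.Icc 0 ⌊t⌋₊, la k =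
      -(1 / 2) * ∫ t in (1:ℝ)..x, LL t / Real.sqrt t / t := by
    rw [intervalIntegral.integral_of_le hx, ← integral_const_mul]
    refine setIntegral_congr_fun measurableSet_Ioc fun t ht => ?_
    show deriv (fun t : ℝ => t ^ (-(1 / 2) : ℝ)) t * ∑ k ∈ Finset.Icc 0 ⌊t⌋₊, la k = _
    rw [(hd t ⟨ht.1.le, ht.2⟩).deriv, e2]
    have ht0 : 0 < t := by linarith [ht.1]
    rw [Real.rpow_sub_one ht0.ne', Real.rpow_neg ht0.le, ← Real.sqrt_eq_rpow]
    field_simp
  rw [e3]
  have hx0 : 0 < x := by linarith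
  rw [Real.rpow_neg hx0.le, ← Real.sqrt_eq_rpow]
  ring

lemma abel2 {x : ℝ} (hx : 1 ≤ x) :
    LL x = Real.sqrt x * Lh x - ∫ t in (1:ℝ)..x, Lh t / (2 * Real.sqrt t) := by
  have hd : ∀ t ∈ Set.Icc (1:ℝ) x, HasDerivAt (fun t : ℝ => Real.sqrt t) (1 / (2 * Real.sqrt t)) t := by
    intro t ht
    exact Real.hasDerivAt_sqrt (by linarith [ht.1])
  have hint : IntegrableOn (deriv (fun t : ℝ => Real.sqrt t)) (Set.Icc 1 x) := by
    have : IntegrableOn (fun t : ℝ => 1 / (2 * Real.sqrt t)) (Set.Icc 1 x) := by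
      refine ContinuousOn.integrableOn_Icc fun t ht => ContinuousAt.continuousWithinAt ?_
      have : 2 * Real.sqrt t ≠ 0 := by
        have := Real.sqrt_pos.2 (show 0 < t by linarith [ht.1])
        positivity
      exact ContinuousAt.div continuousAt_const (by fun_prop) this
    exact this.congr_fun (fun t ht => ((hd t ht).deriv).symm) measurableSet_Icc
  have h := sum_mul_eq_sub_integral_mul₀ (f := fun t : ℝ => Real.sqrt t) (c := fun n : ℕ => la n / Real.sqrt n)
    (by rw [la_zero, zero_div]) x (fun t ht => (hd t ht).differentiableAt) hint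
  have e1 : ∑ k ∈ Finset.Icc 0 ⌊x⌋₊, Real.sqrt k * (la k / Real.sqrt k) = LL x := by
    rw [sum_Icc01 _ (by rw [la_zero, zero_div, mul_zero])]
    unfold LL
    refine Finset.sum_congr rfl fun n hn => ?_
    have hn1 : 1 ≤ n := (Finset.mem_Icc.1 hn).1
    have : Real.sqrt n ≠ 0 := (Real.sqrt_pos.2 (by exact_mod_cast hn1)).ne'
    field_simp
  have e2 : ∀ t : ℝ, ∑ k ∈ Finset.Icc 0 ⌊t⌋₊, la k / Real.sqrt k = Lh t := fun t =>
    sum_Icc01 (fun k => la k / Real.sqrt k) (by rw [la_zero, zero_div]) _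
  have e3 : ∫ t in Set.Ioc 1 x, deriv (fun t : ℝ => Real.sqrt t) t * ∑ k ∈ Finset.Icc 0 ⌊t⌋₊, la k / Real.sqrt k =
      ∫ t in (1:ℝ)..x, Lh t / (2 * Real.sqrt t) := by
    rw [intervalIntegral.integral_of_le hx]
    refine setIntegral_congr_fun measurableSet_Ioc fun t ht => ?_
    show deriv (fun t : ℝ => Real.sqrt t) t * ∑ k ∈ Finset.Icc 0 ⌊t⌋₊, la k / Real.sqrt k = _
    rw [(hd t ⟨ht.1.le, ht.2⟩).deriv, e2]
    ring
  rw [← e1]
  refine h.trans ?_
  rw [e2, e3]

/-- the constant `1/ζ(1/2)` -/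
def cc : ℂ := 1 / riemannZeta (1 / 2)

/-- the error term -/
def De (x : ℝ) : ℂ := (Lh x : ℂ) - cc / 2 * Real.log x

lemma LLi {x : ℝ} (hx : 1 ≤ x) : IntervalIntegrable (fun t => LL t / Real.sqrt t / t) volume 1 x := by
  rw [intervalIntegrable_iff_integrableOn_Ioc_of_le hx]
  refine Integrable.mono' (g := fun _ => x) (integrableOn_const (by simp)) ?_ ?_
  · exact ((LL_meas.div (by fun_prop)).div (by fun_prop)).aestronglyMeasurable
  · filter_upwards [ae_restrict_mem measurableSet_Ioc] with t ht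
    have h1 : |LL t| ≤ t := by
      unfold LL
      refine (Finset.abs_sum_le_sum_abs _ _).trans ((Finset.sum_le_sum fun n _ => la_abs n).trans ?_)
      simp
      exact Nat.floor_le (by linarith [ht.1])
    have ht1 : 1 ≤ t := ht.1.le
    have h2 : 1 ≤ Real.sqrt t := Real.one_le_sqrt.2 ht1
    rw [Real.norm_eq_abs, abs_div, abs_div, abs_of_pos (by linarith : 0 < t), abs_of_pos (by linarith : 0 < Real.sqrt t)]
    calc |LL t| / Real.sqrt t / t ≤ |LL t| / 1 / 1 := by gcongr
      _ ≤ x := by simpa using h1.trans ht.2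

/-- the error term by partial summation -/
lemma De_eq {x : ℝ} (hx : 1 ≤ x) :
    De x = cc + hh x + (1 / 2) * ∫ t in (1:ℝ)..x, hh t / t := by
  have e1 : ∫ t in (1:ℝ)..x, hh t / t = ((∫ t in (1:ℝ)..x, LL t / Real.sqrt t / t : ℝ) : ℂ) - cc * Real.log x := by
    have i1 : IntervalIntegrable (fun t => ((LL t / Real.sqrt t / t : ℝ) : ℂ)) volume 1 x :=
      ⟨Integrable.ofReal (LLi hx).1, Integrable.ofReal (LLi hx).2⟩
    have i2 : IntervalIntegrable (fun t : ℝ => cc * ((t⁻¹ : ℝ) : ℂ)) volume 1 x := by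
      refine ContinuousOn.intervalIntegrable fun t ht => ContinuousAt.continuousWithinAt ?_
      rw [uIcc_of_le hx] at ht
      have : t ≠ 0 := by linarith [ht.1]
      have h3 : ContinuousAt (fun t : ℝ => t⁻¹) t := continuousAt_inv₀ this
      exact continuousAt_const.mul (Complex.continuous_ofReal.continuousAt.comp h3)
    rw [← intervalIntegral.integral_ofReal]
    have e3 : cc * Real.log x = ∫ t in (1:ℝ)..x, cc * ((t⁻¹ : ℝ) : ℂ) := by
      rw [intervalIntegral.integral_const_mul, intervalIntegral.integral_ofReal,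
        integral_inv_of_pos one_pos (by linarith), div_one]
    rw [e3, ← intervalIntegral.integral_sub i1 i2]
    refine intervalIntegral.integral_congr fun t ht => ?_
    unfold hh cc
    push_cast
    ring
  unfold De
  rw [e1, abel1 hx]
  unfold hh
  push_cast
  have : cc = 1 / riemannZeta (1 / 2) := rfl
  rw [this]
  ring

lemma int_log_sqrt {x : ℝ} (hx : 1 ≤ x) :
    ∫ t in (1:ℝ)..x, Real.log t / (2 * Real.sqrt t) = Real.sqrt x * Real.log x - 2 * (Real.sqrt x - 1) := by
  have h : ∀ t ∈ uIcc 1 x, HasDerivAt (fun t : ℝ => Real.sqrt t * Real.log t - 2 * (Real.sqrt t - 1))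
      (Real.log t / (2 * Real.sqrt t)) t := by
    intro t ht
    rw [uIcc_of_le hx] at ht
    have ht0 : 0 < t := by linarith [ht.1]
    have hs := Real.sqrt_pos.2 ht0
    have h1 := Real.hasDerivAt_sqrt ht0.ne'
    have h2 := Real.hasDerivAt_log ht0.ne'
    have h3 := (h1.mul h2).sub ((h1.sub_const 1).const_mul 2)
    refine h3.congr_deriv ?_
    have h4 : t⁻¹ = (Real.sqrt t * Real.sqrt t)⁻¹ := by rw [Real.mul_self_sqrt ht0.le]
    rw [h4]
    field_simp
    ring
  have hi : IntervalIntegrable (fun t : ℝ => Real.log t / (2 * Real.sqrt t)) volume 1 x := by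
    refine ContinuousOn.intervalIntegrable fun t ht => ContinuousAt.continuousWithinAt ?_
    rw [uIcc_of_le hx] at ht
    have ht0 : 0 < t := by linarith [ht.1]
    have : 2 * Real.sqrt t ≠ 0 := by
      have := Real.sqrt_pos.2 ht0
      positivity
    exact ContinuousAt.div (Real.continuousAt_log ht0.ne') (by fun_prop) this
  rw [intervalIntegral.integral_eq_sub_of_hasDerivAt h hi]
  simp

lemma Lhi {x : ℝ} (hx : 1 ≤ x) : IntervalIntegrable (fun t => Lh t / (2 * Real.sqrt t)) volume 1 x := by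
  rw [intervalIntegrable_iff_integrableOn_Ioc_of_le hx]
  refine Integrable.mono' (g := fun _ => x) (integrableOn_const (by simp)) ?_ ?_
  · exact (Lh_meas.div (by fun_prop)).aestronglyMeasurable
  · filter_upwards [ae_restrict_mem measurableSet_Ioc] with t ht
    have h1 : |Lh t| ≤ t := by
      unfold Lh
      refine (Finset.abs_sum_le_sum_abs _ _).trans ((Finset.sum_le_sum (g := fun _ => (1:ℝ)) fun n hn => ?_).trans ?_)
      · have hn1 : (1:ℝ) ≤ n := by exact_mod_cast (Finset.mem_Icc.1 hn).1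
        have h2 : 1 ≤ Real.sqrt n := Real.one_le_sqrt.2 hn1
        rw [abs_div, abs_of_pos (by linarith : 0 < Real.sqrt n), div_le_one (by linarith)]
        exact (la_abs n).trans h2
      · simp
        exact Nat.floor_le (by linarith [ht.1])
    have ht1 : 1 ≤ t := ht.1.le
    have h2 : 1 ≤ 2 * Real.sqrt t := by
      have := Real.one_le_sqrt.2 ht1
      linarith
    rw [Real.norm_eq_abs, abs_div, abs_of_pos (by linarith : 0 < 2 * Real.sqrt t)]
    calc |Lh t| / (2 * Real.sqrt t) ≤ |Lh t| / 1 := by gcongr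
      _ ≤ x := by simpa using h1.trans ht.2

/-- the summatory function from the error term -/
lemma LL_De {x : ℝ} (hx : 1 ≤ x) :
    (LL x : ℂ) = Real.sqrt x * De x + cc * (Real.sqrt x - 1) -
      ∫ t in (1:ℝ)..x, De t / (2 * Real.sqrt t : ℝ) := by
  have e1 : ∫ t in (1:ℝ)..x, De t / (2 * Real.sqrt t : ℝ) =
      ((∫ t in (1:ℝ)..x, Lh t / (2 * Real.sqrt t) : ℝ) : ℂ) -
        cc / 2 * ((Real.sqrt x * Real.log x - 2 * (Real.sqrt x - 1) : ℝ) : ℂ) := by
    have i1 : IntervalIntegrable (fun t => ((Lh t / (2 * Real.sqrt t) : ℝ) : ℂ)) volume 1 x :=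
      ⟨Integrable.ofReal (Lhi hx).1, Integrable.ofReal (Lhi hx).2⟩
    have i2 : IntervalIntegrable (fun t : ℝ => cc / 2 * ((Real.log t / (2 * Real.sqrt t) : ℝ) : ℂ)) volume 1 x := by
      refine ContinuousOn.intervalIntegrable fun t ht => ContinuousAt.continuousWithinAt ?_
      rw [uIcc_of_le hx] at ht
      have ht0 : 0 < t := by linarith [ht.1]
      have : 2 * Real.sqrt t ≠ 0 := by
        have := Real.sqrt_pos.2 ht0
        positivity
      have h3 : ContinuousAt (fun t : ℝ => Real.log t / (2 * Real.sqrt t)) t :=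
        ContinuousAt.div (Real.continuousAt_log ht0.ne') (by fun_prop) this
      exact continuousAt_const.mul (Complex.continuous_ofReal.continuousAt.comp h3)
    rw [← int_log_sqrt hx, ← intervalIntegral.integral_ofReal, ← intervalIntegral.integral_ofReal,
      ← intervalIntegral.integral_const_mul, ← intervalIntegral.integral_sub i1 i2]
    refine intervalIntegral.integral_congr fun t ht => ?_
    unfold De
    push_cast
    ring
  rw [e1, abel2 hx]
  unfold De
  push_cast
  ring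

end

end Pool.Agent.U736.LH
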