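import Pool.Agent.U736.LH.D

/-! # The equivalences -/

set_option autoImplicit false

open Complex Filter Topology Set MeasureTheory Metric Asymptotics

namespace Pool.Agent.U736.LH

noncomputable section

/-- the comparison functions -/
structure Cmp (k : ℕ) (η : ℝ → ℝ) : Prop where
  pos : ∀ u, 1 ≤ u → 0 < η u
  mono : ∀ u v, 1 ≤ u → u ≤ v → η u ≤ η v
  anti : ∀ u v, 1 ≤ u → u ≤ v → η v / v ^ k ≤ η u / u ^ k

/-- the extension -/
def et (η : ℝ → ℝ) (u : ℝ) : ℝ := η (max u 1)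

lemma et_pos {k : ℕ} {η : ℝ → ℝ} (h : Cmp k η) (u : ℝ) : 0 < et η u := h.pos _ (le_max_right _ _)

lemma et_mono {k : ℕ} {η : ℝ → ℝ} (h : Cmp k η) {u v : ℝ} (huv : u ≤ v) : et η u ≤ et η v :=
  h.mono _ _ (le_max_right _ _) (max_le_max huv le_rfl)

lemma et_eq {η : ℝ → ℝ} {u : ℝ} (hu : 1 ≤ u) : et η u = η u := by
  unfold et
  rw [max_eq_left hu]

lemma et_le {k : ℕ} {η : ℝ → ℝ} (h : Cmp k η) {u v : ℝ} (huv : u ≤ v) :
    et η v ≤ et η u * (1 + (v - u)) ^ k := by
  have h1 : 1 ≤ max u 1 := le_max_right _ _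
  have h2 : max u 1 ≤ max v 1 := max_le_max huv le_rfl
  have h3 := h.anti _ _ h1 h2
  have hu0 : 0 < max u 1 := by linarith
  have hv0 : 0 < max v 1 := by linarith
  have huk : 0 < max u 1 ^ k := by positivity
  rw [div_le_div_iff₀ (by positivity) huk] at h3
  have h4 : 0 < et η u := et_pos h u
  have h5 : max v 1 - max u 1 ≤ v - u := by
    rcases le_total v 1 with h6 | h6
    · rw [max_eq_right h6, max_eq_right (huv.trans h6)]
      linarith
    · rw [max_eq_left h6]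
      linarith [le_max_left u 1]
  have h6 : et η v * max u 1 ^ k ≤ et η u * max v 1 ^ k := h3
  have h7 : max v 1 ≤ (1 + (v - u)) * max u 1 := by
    nlinarith [mul_nonneg (sub_nonneg.2 huv) (sub_nonneg.2 h1)]
  have h7k : max v 1 ^ k ≤ (1 + (v - u)) ^ k * max u 1 ^ k := by
    rw [← mul_pow]
    exact pow_le_pow_left₀ hv0.le h7 _
  have h8 : et η v * max u 1 ^ k ≤ (et η u * (1 + (v - u)) ^ k) * max u 1 ^ k := by
    refine h6.trans ?_
    calc et η u * max v 1 ^ k ≤ et η u * ((1 + (v - u)) ^ k * max u 1 ^ k) :=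
          mul_le_mul_of_nonneg_left h7k h4.le
      _ = _ := by ring
  exact le_of_mul_le_mul_right h8 huk

lemma abs_LL_le {t : ℝ} (ht : 1 ≤ t) : |LL t| ≤ t := by
  unfold LL
  refine (Finset.abs_sum_le_sum_abs _ _).trans ((Finset.sum_le_sum fun n _ => la_abs n).trans ?_)
  simp
  exact Nat.floor_le (by linarith)

lemma abs_Lh_le {t : ℝ} (ht : 1 ≤ t) : |Lh t| ≤ t := by
  unfold Lh
  refine (Finset.abs_sum_le_sum_abs _ _).trans ((Finset.sum_le_sum (g := fun _ => (1:ℝ)) fun n hn => ?_).trans ?_)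
  · have hn1 : (1:ℝ) ≤ n := by exact_mod_cast (Finset.mem_Icc.1 hn).1
    have h2 : 1 ≤ Real.sqrt n := Real.one_le_sqrt.2 hn1
    rw [abs_div, abs_of_pos (by linarith : 0 < Real.sqrt n), div_le_one (by linarith)]
    exact (la_abs n).trans h2
  · simp
    exact Nat.floor_le (by linarith)

/-- from the summatory function to the error term -/
theorem forward (k : ℕ) : ∃ A : ℝ, 0 ≤ A ∧ ∀ η : ℝ → ℝ, Cmp k η → ∀ C0 ε : ℝ, 0 ≤ C0 → 0 ≤ ε →
    (∀ t, 1 ≤ t → |LL t| ≤ Real.sqrt t * (C0 + ε * et η (Real.log t))) →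
    ∃ C1 : ℝ, ∀ X, 1 ≤ X → ‖De X‖ ≤ C1 + ε * (1 + A) * et η (Real.log X) := by
  obtain ⟨A, hA, hmain⟩ := main_bound k
  refine ⟨A, hA, fun η hη C0 ε hC0 hε hLL => ?_⟩
  have hcc : 0 ≤ ‖cc‖ := norm_nonneg _
  have hhh : ∀ t, 1 ≤ t → ‖hh t‖ ≤ ‖cc‖ + C0 + ε * et η (Real.log t) := by
    intro t ht
    have hs : 0 < Real.sqrt t := Real.sqrt_pos.2 (by linarith)
    have h1 : ‖((LL t / Real.sqrt t : ℝ) : ℂ)‖ ≤ C0 + ε * et η (Real.log t) := by
      rw [Complex.norm_real, Real.norm_eq_abs, abs_div, abs_of_pos hs, div_le_iff₀ hs]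
      have := hLL t ht
      linarith
    have h2 := norm_sub_le ((LL t / Real.sqrt t : ℝ) : ℂ) cc
    have h3 : hh t = ((LL t / Real.sqrt t : ℝ) : ℂ) - cc := rfl
    rw [h3]
    linarith
  have hHyp : Hyp k (C0 + ε * et η 0) := by
    intro t ht
    have hl : 0 ≤ Real.log t := Real.log_nonneg ht
    have h1 := et_le hη hl
    rw [sub_zero] at h1
    have h2 := hLL t ht
    have hs : 0 ≤ Real.sqrt t := Real.sqrt_nonneg t
    refine h2.trans ?_
    have h3 : C0 + ε * et η (Real.log t) ≤ (C0 + ε * et η 0) * (1 + Real.log t) ^ k := by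
      have h4 := mul_le_mul_of_nonneg_left h1 hε
      have h5 : 1 ≤ (1 + Real.log t) ^ k := one_le_pow₀ (by linarith)
      nlinarith [mul_nonneg hC0 (sub_nonneg.2 h5)]
    calc Real.sqrt t * (C0 + ε * et η (Real.log t))
        ≤ Real.sqrt t * ((C0 + ε * et η 0) * (1 + Real.log t) ^ k) := mul_le_mul_of_nonneg_left h3 hs
      _ = _ := by ring
  have hK0 : 0 ≤ C0 + ε * et η 0 := by
    have := (et_pos hη 0).le
    positivity
  refine ⟨2 * ‖cc‖ + C0 + (1 / 2) * (A * (1 + 2 * (‖cc‖ + C0))), fun X hX => ?_⟩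
  have hE := (et_pos hη (Real.log X)).le
  set m : ℝ := ‖cc‖ + C0 + ε * et η (Real.log X) with hm
  have hm0 : 0 ≤ m := by positivity
  have hb := hmain _ hK0 hHyp X hX m m hm0 (fun t h1 h2 => by
    refine (hhh t h1).trans ?_
    have := et_mono hη (Real.log_le_log (by linarith) h2)
    have := mul_le_mul_of_nonneg_left this hε
    rw [hm]
    linarith) (fun t h1 => by
    refine (hhh t (hX.trans h1)).trans ?_
    have hX0 : 0 < X := by linarith
    have e1 : Real.log (t / X) = Real.log t - Real.log X := Real.log_div (by linarith) hX0.ne'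
    have h2 := Real.log_le_log hX0 h1
    have h3 := et_le hη h2
    have h4 := mul_le_mul_of_nonneg_left h3 hε
    have h5 : 1 ≤ (1 + (Real.log t - Real.log X)) ^ k := one_le_pow₀ (by linarith)
    rw [e1, hm]
    nlinarith [mul_nonneg (add_nonneg hcc hC0) (sub_nonneg.2 h5)])
  rw [De_eq hX]
  have h5 : ‖cc + hh X + (1 / 2) * ∫ t in (1:ℝ)..X, hh t / t‖ ≤
      ‖cc‖ + ‖hh X‖ + (1 / 2) * ‖∫ t in (1:ℝ)..X, hh t / t‖ := by
    refine (norm_add_le _ _).trans (add_le_add (norm_add_le _ _) ?_)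
    rw [norm_mul]
    simp
  refine h5.trans ?_
  have h6 := hhh X hX
  rw [hm] at hb
  have h7 : A * (1 + (‖cc‖ + C0 + ε * et η (Real.log X)) + (‖cc‖ + C0 + ε * et η (Real.log X))) =
      A * (1 + 2 * (‖cc‖ + C0)) + 2 * (ε * A * et η (Real.log X)) := by ring
  rw [h7] at hb
  linarith

/-- from the error term to the summatory function -/
theorem backward {k : ℕ} (η : ℝ → ℝ) (hη : Cmp k η) (C0 ε : ℝ) (hC0 : 0 ≤ C0) (hε : 0 ≤ ε)
    (hDe : ∀ t, 1 ≤ t → ‖De t‖ ≤ C0 + ε * et η (Real.log t)) :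
    ∀ x, 1 ≤ x → |LL x| ≤ Real.sqrt x * ((2 * C0 + ‖cc‖) + 2 * ε * et η (Real.log x)) := by
  intro x hx
  have hx0 : 0 < x := by linarith
  set m : ℝ := C0 + ε * et η (Real.log x) with hm
  have hE := (et_pos hη (Real.log x)).le
  have hm0 : 0 ≤ m := by positivity
  have hs1 : 1 ≤ Real.sqrt x := Real.one_le_sqrt.2 hx
  have hcont : ∀ t ∈ uIcc 1 x, HasDerivAt (fun t : ℝ => m * Real.sqrt t) (m / (2 * Real.sqrt t)) t := by
    intro t ht
    rw [uIcc_of_le hx] at ht
    have ht0 : 0 < t := by linarith [ht.1]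
    refine ((Real.hasDerivAt_sqrt ht0.ne').const_mul m).congr_deriv ?_
    ring
  have hi : IntervalIntegrable (fun t : ℝ => m / (2 * Real.sqrt t)) volume 1 x := by
    refine ContinuousOn.intervalIntegrable fun t ht => ContinuousAt.continuousWithinAt ?_
    rw [uIcc_of_le hx] at ht
    have ht0 : 0 < t := by linarith [ht.1]
    have : 2 * Real.sqrt t ≠ 0 := by
      have := Real.sqrt_pos.2 ht0
      positivity
    exact ContinuousAt.div continuousAt_const (by fun_prop) this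
  have h1 : ‖∫ t in (1:ℝ)..x, De t / (2 * Real.sqrt t : ℝ)‖ ≤ ∫ t in (1:ℝ)..x, m / (2 * Real.sqrt t) := by
    refine intervalIntegral.norm_integral_le_of_norm_le hx ?_ hi
    refine Eventually.of_forall fun t ht => ?_
    have ht0 : 0 < t := by linarith [ht.1]
    have hs : 0 < 2 * Real.sqrt t := by
      have := Real.sqrt_pos.2 ht0
      positivity
    rw [norm_div, Complex.norm_real, Real.norm_eq_abs, abs_of_pos hs]
    refine div_le_div_of_nonneg_right ?_ hs.le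
    refine (hDe t ht.1.le).trans ?_
    have := mul_le_mul_of_nonneg_left (et_mono hη (Real.log_le_log ht0 ht.2)) hε
    rw [hm]
    linarith
  rw [intervalIntegral.integral_eq_sub_of_hasDerivAt hcont hi, Real.sqrt_one] at h1
  have h2 := LL_De hx
  have h3 : |LL x| = ‖(LL x : ℂ)‖ := by rw [Complex.norm_real, Real.norm_eq_abs]
  rw [h3, h2]
  have h4 : ‖(Real.sqrt x : ℂ) * De x + cc * (Real.sqrt x - 1) - ∫ t in (1:ℝ)..x, De t / (2 * Real.sqrt t : ℝ)‖ ≤
      Real.sqrt x * ‖De x‖ + ‖cc‖ * (Real.sqrt x - 1) + ‖∫ t in (1:ℝ)..x, De t / (2 * Real.sqrt t : ℝ)‖ := by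
    refine (norm_sub_le _ _).trans (add_le_add ((norm_add_le _ _).trans (add_le_add ?_ ?_)) le_rfl)
    · rw [norm_mul, Complex.norm_real, Real.norm_eq_abs, abs_of_nonneg (Real.sqrt_nonneg x)]
    · rw [norm_mul]
      have : ((Real.sqrt x : ℂ) - 1) = ((Real.sqrt x - 1 : ℝ) : ℂ) := by push_cast; rfl
      rw [this, Complex.norm_real, Real.norm_eq_abs, abs_of_nonneg (by linarith)]
  refine h4.trans ?_
  have h5 := mul_le_mul_of_nonneg_left (hDe x hx) (Real.sqrt_nonneg x)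
  have h6 : Real.sqrt x * (C0 + ε * et η (Real.log x)) = Real.sqrt x * m := rfl
  rw [h6] at h5
  have h7 : Real.sqrt x * ((2 * C0 + ‖cc‖) + 2 * ε * et η (Real.log x)) =
      2 * (Real.sqrt x * m) + ‖cc‖ * Real.sqrt x := by
    rw [hm]
    ring
  rw [h7]
  nlinarith [norm_nonneg cc]

lemma ev_bound_LL {k : ℕ} {η : ℝ → ℝ} (hη : Cmp k η) {c : ℝ} (hc : 0 ≤ c)
    (h : ∀ᶠ x : ℝ in atTop, |LL x| ≤ c * (Real.sqrt x * η (Real.log x))) :
    ∃ C0 : ℝ, 0 ≤ C0 ∧ ∀ t, 1 ≤ t → |LL t| ≤ Real.sqrt t * (C0 + c * et η (Real.log t)) := by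
  obtain ⟨x0, hx0⟩ := eventually_atTop.1 (h.and (Real.tendsto_log_atTop.eventually_ge_atTop 1))
  refine ⟨|x0|, abs_nonneg _, fun t ht => ?_⟩
  have hE := (et_pos hη (Real.log t)).le
  rcases le_total x0 t with h1 | h1
  · obtain ⟨h2, h3⟩ := hx0 t h1
    rw [et_eq h3]
    have : 0 ≤ Real.sqrt t * |x0| := by positivity
    nlinarith
  · have h2 := abs_LL_le ht
    have h3 : t ≤ Real.sqrt t * |x0| := by
      have h4 : t = Real.sqrt t * Real.sqrt t := (Real.mul_self_sqrt (by linarith)).symm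
      have h5 : Real.sqrt t ≤ |x0| := by
        have h6 : Real.sqrt t ≤ t := by
          rw [Real.sqrt_le_left (by linarith)]
          nlinarith
        exact h6.trans (h1.trans (le_abs_self _))
      calc t = Real.sqrt t * Real.sqrt t := h4
        _ ≤ Real.sqrt t * |x0| := mul_le_mul_of_nonneg_left h5 (Real.sqrt_nonneg t)
    have h7 : 0 ≤ Real.sqrt t * (c * et η (Real.log t)) := by positivity
    nlinarith

lemma ev_bound_De {k : ℕ} {η : ℝ → ℝ} (hη : Cmp k η) {c : ℝ} (hc : 0 ≤ c)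
    (h : ∀ᶠ x : ℝ in atTop, ‖De x‖ ≤ c * η (Real.log x)) :
    ∃ C0 : ℝ, 0 ≤ C0 ∧ ∀ t, 1 ≤ t → ‖De t‖ ≤ C0 + c * et η (Real.log t) := by
  obtain ⟨x0, hx0⟩ := eventually_atTop.1 (h.and (Real.tendsto_log_atTop.eventually_ge_atTop 1))
  refine ⟨|x0| + ‖cc / 2‖ * |x0|, by positivity, fun t ht => ?_⟩
  have hE := (et_pos hη (Real.log t)).le
  have hcE : 0 ≤ c * et η (Real.log t) := by positivity
  rcases le_total x0 t with h1 | h1
  · obtain ⟨h2, h3⟩ := hx0 t h1
    rw [et_eq h3] at hcE ⊢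
    have : 0 ≤ |x0| + ‖cc / 2‖ * |x0| := by positivity
    linarith
  · have h2 := abs_Lh_le ht
    have ht2 : t ≤ |x0| := h1.trans (le_abs_self _)
    have hl : Real.log t ≤ t := (Real.log_le_sub_one_of_pos (by linarith)).trans (by linarith)
    have hl0 : 0 ≤ Real.log t := Real.log_nonneg ht
    have h3 : ‖De t‖ ≤ |Lh t| + ‖cc / 2‖ * Real.log t := by
      unfold De
      refine (norm_sub_le _ _).trans (add_le_add (le_of_eq ?_) (le_of_eq ?_))
      · rw [Complex.norm_real, Real.norm_eq_abs]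
      · rw [norm_mul, Complex.norm_real, Real.norm_eq_abs, abs_of_nonneg hl0]
    have h4 : ‖cc / 2‖ * Real.log t ≤ ‖cc / 2‖ * |x0| :=
      mul_le_mul_of_nonneg_left (hl.trans ht2) (norm_nonneg _)
    linarith

lemma const_le {k : ℕ} {η : ℝ → ℝ} (hη : Cmp k η) (C : ℝ) :
    ∀ᶠ x : ℝ in atTop, C ≤ |C| / η 1 * η (Real.log x) := by
  filter_upwards [Real.tendsto_log_atTop.eventually_ge_atTop 1] with x hx
  have h1 := hη.pos 1 le_rfl
  have h2 := hη.mono 1 _ le_rfl hx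
  calc C ≤ |C| := le_abs_self C
    _ = |C| / η 1 * η 1 := by field_simp
    _ ≤ |C| / η 1 * η (Real.log x) := by gcongr

theorem bigO_iff {k : ℕ} (η : ℝ → ℝ) (hη : Cmp k η) :
    (LL =O[atTop] fun x => Real.sqrt x * η (Real.log x)) ↔ De =O[atTop] fun x => η (Real.log x) := by
  have hpos : ∀ᶠ x : ℝ in atTop, 1 ≤ Real.log x ∧ 1 ≤ x :=
    (Real.tendsto_log_atTop.eventually_ge_atTop 1).and (eventually_ge_atTop 1)
  constructor
  · intro h
    obtain ⟨A, hA, hf⟩ := forward k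
    obtain ⟨c, hc, hb⟩ := h.exists_nonneg
    have hb' : ∀ᶠ x : ℝ in atTop, |LL x| ≤ c * (Real.sqrt x * η (Real.log x)) := by
      filter_upwards [hb.bound, hpos] with x h1 h2
      have := hη.pos _ h2.1
      rwa [Real.norm_eq_abs, Real.norm_eq_abs,
        abs_of_nonneg (by positivity : 0 ≤ Real.sqrt x * η (Real.log x))] at h1
    obtain ⟨C0, hC0, h1⟩ := ev_bound_LL hη hc hb'
    obtain ⟨C1, h2⟩ := hf η hη C0 c hC0 hc h1
    refine IsBigO.of_bound (|C1| / η 1 + c * (1 + A)) ?_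
    filter_upwards [const_le hη C1, hpos] with x h3 h4
    have h5 := h2 x h4.2
    rw [et_eq h4.1] at h5
    rw [Real.norm_eq_abs, abs_of_pos (hη.pos _ h4.1)]
    linarith
  · intro h
    obtain ⟨c, hc, hb⟩ := h.exists_nonneg
    have hb' : ∀ᶠ x : ℝ in atTop, ‖De x‖ ≤ c * η (Real.log x) := by
      filter_upwards [hb.bound, hpos] with x h1 h2
      rwa [Real.norm_eq_abs, abs_of_pos (hη.pos _ h2.1)] at h1
    obtain ⟨C0, hC0, h1⟩ := ev_bound_De hη hc hb'
    have h2 := backward η hη C0 c hC0 hc h1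
    refine IsBigO.of_bound (|2 * C0 + ‖cc‖| / η 1 + 2 * c) ?_
    filter_upwards [const_le hη (2 * C0 + ‖cc‖), hpos] with x h3 h4
    have h5 := h2 x h4.2
    rw [et_eq h4.1] at h5
    have h6 := hη.pos _ h4.1
    rw [Real.norm_eq_abs, Real.norm_eq_abs, abs_of_nonneg (by positivity : 0 ≤ Real.sqrt x * η (Real.log x))]
    refine h5.trans ?_
    calc Real.sqrt x * ((2 * C0 + ‖cc‖) + 2 * c * η (Real.log x))
        ≤ Real.sqrt x * (|2 * C0 + ‖cc‖| / η 1 * η (Real.log x) + 2 * c * η (Real.log x)) := by gcongr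
      _ = _ := by ring

theorem littleO_iff {k : ℕ} (η : ℝ → ℝ) (hη : Cmp k η) (hinf : Tendsto η atTop atTop) :
    (LL =o[atTop] fun x => Real.sqrt x * η (Real.log x)) ↔ De =o[atTop] fun x => η (Real.log x) := by
  have hpos : ∀ᶠ x : ℝ in atTop, 1 ≤ Real.log x ∧ 1 ≤ x :=
    (Real.tendsto_log_atTop.eventually_ge_atTop 1).and (eventually_ge_atTop 1)
  have hinf2 : Tendsto (fun x : ℝ => η (Real.log x)) atTop atTop := hinf.comp Real.tendsto_log_atTop
  constructor
  · intro h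
    obtain ⟨A, hA, hf⟩ := forward k
    rw [isLittleO_iff]
    intro c' hc'
    set c := c' / (2 * (1 + A)) with hcdef
    have hc : 0 < c := by positivity
    have hb' : ∀ᶠ x : ℝ in atTop, |LL x| ≤ c * (Real.sqrt x * η (Real.log x)) := by
      filter_upwards [(isLittleO_iff.1 h) hc, hpos] with x h1 h2
      have := hη.pos _ h2.1
      rwa [Real.norm_eq_abs, Real.norm_eq_abs,
        abs_of_nonneg (by positivity : 0 ≤ Real.sqrt x * η (Real.log x))] at h1
    obtain ⟨C0, hC0, h1⟩ := ev_bound_LL hη hc.le hb'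
    obtain ⟨C1, h2⟩ := hf η hη C0 c hC0 hc.le h1
    filter_upwards [hinf2.eventually_ge_atTop (2 * C1 / c'), hpos] with x h3 h4
    have h5 := h2 x h4.2
    rw [et_eq h4.1] at h5
    rw [Real.norm_eq_abs, abs_of_pos (hη.pos _ h4.1)]
    have h6 : c * (1 + A) = c' / 2 := by
      rw [hcdef]
      field_simp
    rw [h6] at h5
    rw [div_le_iff₀ hc'] at h3
    linarith
  · intro h
    rw [isLittleO_iff]
    intro c' hc'
    set c := c' / 4 with hcdef
    have hc : 0 < c := by positivity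
    have hb' : ∀ᶠ x : ℝ in atTop, ‖De x‖ ≤ c * η (Real.log x) := by
      filter_upwards [(isLittleO_iff.1 h) hc, hpos] with x h1 h2
      rwa [Real.norm_eq_abs, abs_of_pos (hη.pos _ h2.1)] at h1
    obtain ⟨C0, hC0, h1⟩ := ev_bound_De hη hc.le hb'
    have h2 := backward η hη C0 c hC0 hc.le h1
    filter_upwards [hinf2.eventually_ge_atTop (2 * (2 * C0 + ‖cc‖) / c'), hpos] with x h3 h4
    have h5 := h2 x h4.2
    rw [et_eq h4.1] at h5
    have h6 := hη.pos _ h4.1
    rw [Real.norm_eq_abs, Real.norm_eq_abs, abs_of_nonneg (by positivity : 0 ≤ Real.sqrt x * η (Real.log x))]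
    refine h5.trans ?_
    rw [div_le_iff₀ hc'] at h3
    have h7 : (2 * C0 + ‖cc‖) + 2 * c * η (Real.log x) ≤ c' * η (Real.log x) := by
      rw [hcdef]
      linarith
    calc Real.sqrt x * ((2 * C0 + ‖cc‖) + 2 * c * η (Real.log x))
        ≤ Real.sqrt x * (c' * η (Real.log x)) := mul_le_mul_of_nonneg_left h7 (Real.sqrt_nonneg x)
      _ = _ := by ring

end

end Pool.Agent.U736.LH
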